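import Mathlib
import Pool.Agent.H350R3.Klein.SC

/-!
# Self-coverings of the Klein bottle of every degree and their effect on the fundamental group
-/

set_option autoImplicit false

namespace Pool.Agent.H170.KD

open Topology Set Filter Metric MulOpposite Pool.Agent.H350R3.Klein

variable (n : ℕ)

/-- The endomorphism of the Klein bottle group with `(i, j) ↦ (-(n + 2) i + eps j, j)`. -/
def phi (g : KG) : KG := ⟨-((n : ℤ) + 2) * g.i + eps g.j, g.j⟩

theorem nne : ((n : ℝ) + 2) ≠ 0 := by positivity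

theorem nne3 : ((n : ℝ) + 3) ≠ 0 := by positivity

/-- The affine map of the plane covering the self-covering. -/
noncomputable def Am : (ℝ × ℝ) ≃ₜ (ℝ × ℝ) where
  toFun e := (-((n : ℝ) + 2) * e.1 + 1 / 2, e.2)
  invFun e := ((1 / 2 - e.1) / ((n : ℝ) + 2), e.2)
  left_inv e := by
    have := nne n
    ext
    · simp only; field_simp; ring
    · rfl
  right_inv e := by
    have := nne n
    ext
    · simp only; field_simp; ring
    · rfl
  continuous_toFun := by fun_prop
  continuous_invFun := by fun_prop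

@[simp] theorem Am_fst (e : ℝ × ℝ) : (Am n e).1 = -((n : ℝ) + 2) * e.1 + 1 / 2 := rfl
@[simp] theorem Am_snd (e : ℝ × ℝ) : (Am n e).2 = e.2 := rfl

theorem Am_smul (g : KG) (e : ℝ × ℝ) : Am n (g • e) = phi n g • Am n e := by
  ext
  · simp only [Am_fst, KG.smul_fst, phi]
    push_cast
    rw [eps_real]
    ring
  · simp [phi]

/-- the self-covering -/
noncomputable def qq : KB → KB := Quotient.lift (fun e => pr (Am n e)) (by
  intro e e' h
  obtain ⟨g, hg⟩ := h
  rw [← hg]
  show pr (Am n (g • e')) = pr (Am n e')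
  rw [Am_smul, pr_smul])

theorem qq_pr (e : ℝ × ℝ) : qq n (pr e) = pr (Am n e) := rfl

theorem qq_local : IsLocalHomeomorph (qq n) := by
  have h1 : IsLocalHomeomorph (qq n ∘ pr) := by
    have : qq n ∘ pr = pr ∘ Am n := rfl
    rw [this]
    exact pr_cov.isCoveringMap.isLocalHomeomorph.comp (Am n).isLocalHomeomorph
  have h2 : IsLocalHomeomorph pr := pr_cov.isCoveringMap.isLocalHomeomorph
  have h3 := IsLocalHomeomorphOn.of_comp_right (s := univ) (h1.isLocalHomeomorphOn)
    h2.isLocalHomeomorphOn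
  rw [isLocalHomeomorph_iff_isLocalHomeomorphOn_univ]
  rwa [image_univ, pr_cov.surjective.range_eq] at h3

theorem qq_cov : IsCoveringMap (qq n) := isLocalHomeomorph_iff_isCoveringMap.mp (qq_local n)

theorem qq_fiber (x : KB) : Nat.card (qq n ⁻¹' {x}) = n + 2 := by
  obtain ⟨⟨u, v⟩, rfl⟩ := pr_cov.surjective x
  have hn := nne n
  let y : Fin (n + 2) → qq n ⁻¹' {pr (u, v)} :=
    fun k => ⟨pr ((Am n).symm (u + ((k : ℕ) : ℤ), v)), by
    rw [mem_preimage, qq_pr, (Am n).apply_symm_apply, mem_singleton_iff]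
    exact pr_shift u v _⟩
  have hy : Function.Bijective y := by
    constructor
    · intro k l h
      have h1 : pr ((Am n).symm (u + ((k : ℕ) : ℤ), v)) = pr ((Am n).symm (u + ((l : ℕ) : ℤ), v)) :=
        congrArg Subtype.val h
      obtain ⟨g, hg⟩ := pr_eq.mp h1
      have h2 := congrArg (Am n) hg
      rw [Am_smul, (Am n).apply_symm_apply, (Am n).apply_symm_apply] at h2
      have h3 := congrArg Prod.fst h2
      have h4 := congrArg Prod.snd h2
      simp only [KG.smul_fst, KG.smul_snd, phi] at h3 h4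
      have hj : g.j = 0 := by
        have : (g.j : ℝ) = 0 := by linarith
        exact_mod_cast this
      rw [hj] at h3
      have he : eps 0 = 0 := by simp [eps]
      rw [he] at h3
      simp only [KG.sg_zero] at h3
      push_cast at h3
      have h5 : ((k : ℕ) : ℝ) = -((n : ℝ) + 2) * (g.i : ℝ) + ((l : ℕ) : ℝ) := by linarith
      have h6 : ((k : ℕ) : ℤ) = -((n : ℤ) + 2) * g.i + ((l : ℕ) : ℤ) := by exact_mod_cast h5
      have hk := k.2
      have hl := l.2
      have h7 : ((n + 2 : ℕ) : ℤ) ∣ ((l : ℕ) : ℤ) - ((k : ℕ) : ℤ) := ⟨g.i, by push_cast; linarith⟩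
      have h8 : ((k : ℕ) : ℤ) % ((n + 2 : ℕ) : ℤ) = ((l : ℕ) : ℤ) % ((n + 2 : ℕ) : ℤ) :=
        (Int.modEq_iff_dvd.mpr h7)
      rw [Int.emod_eq_of_lt (by positivity) (by exact_mod_cast hk),
        Int.emod_eq_of_lt (by positivity) (by exact_mod_cast hl)] at h8
      ext
      exact_mod_cast h8
    · rintro ⟨y', hy'⟩
      obtain ⟨w, rfl⟩ := pr_cov.surjective y'
      rw [mem_preimage, qq_pr, mem_singleton_iff] at hy'
      obtain ⟨g, hg⟩ := pr_eq.mp hy'
      -- choose the residue
      let t : ℤ := KG.sg g.j * (g.i - eps g.j)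
      have hpos : (0 : ℤ) < (n : ℤ) + 2 := by positivity
      have ht0 : 0 ≤ t % ((n : ℤ) + 2) := Int.emod_nonneg _ hpos.ne'
      have ht3 : t % ((n : ℤ) + 2) < (n : ℤ) + 2 := Int.emod_lt_of_pos _ hpos
      refine ⟨⟨(t % ((n : ℤ) + 2)).toNat, by omega⟩, ?_⟩
      apply Subtype.ext
      show pr ((Am n).symm (u + (((t % ((n : ℤ) + 2)).toNat : ℕ) : ℤ), v)) = pr w
      rw [Int.toNat_of_nonneg ht0]
      symm
      rw [pr_eq]
      have hdvd : ((n : ℤ) + 2) ∣ g.i - eps g.j - KG.sg g.j * (t % ((n : ℤ) + 2)) := by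
        have h1 : g.i - eps g.j = KG.sg g.j * t := by
          simp only [t]
          rw [← mul_assoc, KG.sg_mul_self, one_mul]
        rw [h1, ← mul_sub]
        exact Dvd.dvd.mul_left (Int.dvd_self_sub_emod) _
      obtain ⟨m, hm⟩ := hdvd
      refine ⟨⟨-m, g.j⟩, ?_⟩
      apply (Am n).injective
      rw [Am_smul, (Am n).apply_symm_apply, hg]
      ext
      · simp only [KG.smul_fst, phi]
        have : (g.i : ℝ) - eps g.j - KG.sg g.j * ((t % ((n : ℤ) + 2) : ℤ) : ℝ)
            = ((n : ℝ) + 2) * m := by exact_mod_cast hm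
        push_cast at this ⊢
        linarith
      · simp [phi]
  rw [← Nat.card_congr (Equiv.ofBijective y hy), Nat.card_eq_fintype_card, Fintype.card_fin]

/-- base point upstairs -/
noncomputable def e0 : ℝ × ℝ := (1 / (2 * ((n : ℝ) + 3)), 0)

theorem Am_e0 : Am n (e0 n) = e0 n := by
  have := nne3 n
  ext
  · simp only [Am_fst, e0]; field_simp; ring
  · rfl

/-- base point -/
noncomputable def x0 : KB := pr (e0 n)

theorem qq_x0 : qq n (x0 n) = x0 n := by
  rw [x0, qq_pr, Am_e0]

noncomputable def qqC : C(KB, KB) := ⟨qq n, (qq_local n).continuous⟩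

theorem qqC_x0 : qqC n (x0 n) = x0 n := qq_x0 n

/-- the induced endomorphism of the fundamental group -/
noncomputable def hs : FundamentalGroup KB (x0 n) →* FundamentalGroup KB (x0 n) :=
  FundamentalGroup.mapOfEq (qqC n) (qqC_x0 n)

/-- base point in the fibre -/
noncomputable def be : pr ⁻¹' {x0 n} := ⟨e0 n, rfl⟩

theorem be_val : (be n : ℝ × ℝ) = e0 n := rfl

noncomputable def Psi : FundamentalGroup KB (x0 n) ≃* KGᵐᵒᵖ :=
  pr_cov.fundamentalGroupEquiv (be n)

theorem Psi_spec (γ : FundamentalGroup KB (x0 n)) :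
    (Psi n γ).unop • e0 n = (pr_cov.isCoveringMap.monodromy γ (be n) : ℝ × ℝ) :=
  pr_cov.unop_fundamentalGroupToMulOpposite_smul

theorem Psi_eq {γ : FundamentalGroup KB (x0 n)} {g : KG}
    (h : g • e0 n = (pr_cov.isCoveringMap.monodromy γ (be n) : ℝ × ℝ)) : (Psi n γ).unop = g := by
  have h1 : Psi n γ = op g :=
    (pr_cov.fundamentalGroupToMulOpposite_apply_eq_Iff (e := be n)).mpr h
  rw [h1, MulOpposite.unop_op]

theorem Psi_hs (γ : FundamentalGroup KB (x0 n)) :
    (Psi n (hs n γ)).unop = phi n (Psi n γ).unop := by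
  apply Psi_eq
  have h1 := Psi_spec n γ
  have h2 : phi n (Psi n γ).unop • e0 n
      = Am n (pr_cov.isCoveringMap.monodromy γ (be n) : ℝ × ℝ) := by
    rw [← h1, Am_smul, Am_e0]
  rw [h2]
  induction γ using Quotient.inductionOn with
  | _ γ =>
    have cov := pr_cov.isCoveringMap
    -- the lift of `γ`
    have hγ0 : γ 0 = pr (e0 n) := γ.source
    have hq : hs n (Quotient.mk _ γ) = Quotient.mk _
        ((γ.map (qqC n).continuous).cast (qqC_x0 n).symm (qqC_x0 n).symm) := by
      exact FundamentalGroup.mapOfEq_apply (qqC n) (qqC_x0 n) _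
    rw [hq]
    show Am n (cov.liftPath (γ : C(unitInterval, KB)) (e0 n) hγ0 1) =
      cov.liftPath ((γ.map (qqC n).continuous).cast (qqC_x0 n).symm
        (qqC_x0 n).symm : C(unitInterval, KB)) (e0 n) _ 1
    have key : (⟨Am n, (Am n).continuous⟩ : C(ℝ × ℝ, ℝ × ℝ)).comp
        (cov.liftPath (γ : C(unitInterval, KB)) (e0 n) hγ0) =
      cov.liftPath ((γ.map (qqC n).continuous).cast (qqC_x0 n).symm
        (qqC_x0 n).symm : C(unitInterval, KB)) (e0 n)
        (by
          show qq n (γ 0) = pr (e0 n)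
          rw [hγ0, qq_pr, Am_e0]) := by
      rw [cov.eq_liftPath_iff']
      refine ⟨?_, ?_⟩
      · funext t
        show pr (Am n (cov.liftPath (γ : C(unitInterval, KB)) (e0 n) hγ0 t)) = qq n (γ t)
        rw [← qq_pr]
        congr 1
        exact congrFun (cov.liftPath_lifts (γ : C(unitInterval, KB)) (e0 n) hγ0) t
      · show Am n (cov.liftPath (γ : C(unitInterval, KB)) (e0 n) hγ0 0) = e0 n
        rw [cov.liftPath_zero, Am_e0]
    rw [← key]
    rfl

end Pool.Agent.H170.KD
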