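import Mathlib
import Pool.Agent.H350R3.Klein.Defs
import Pool.Agent.H350R3.Klein.Fin
import Pool.Agent.H170.KD.SC

set_option autoImplicit false

namespace Pool.Agent.H170.KD

open Topology Set Filter Metric MulOpposite Pool.Agent.H350R3.Klein

variable (n : ℕ)

/-- The Klein bottle with its self-covering of degree `n + 2`. -/
noncomputable def kleinSelf : SelfCovering where
  X := KB
  X' := KB
  q := qqC n
  isCovering := qq_cov n
  degree := n + 2
  one_lt_degree := by omega
  card_fiber := qq_fiber n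
  h := ContinuousMap.HomotopyEquiv.refl KB
  x := x0 n
  q_h_x := qq_x0 n

theorem hsharp_eq : (kleinSelf n).hsharp = hs n := rfl

/-- the invariant multiplied by `-(n + 2)` -/
def tau (g : KG) : ℤ := ((n : ℤ) + 3) * g.i - eps g.j

theorem tau_phi (g : KG) : tau n (phi n g) = -((n : ℤ) + 2) * tau n g := by
  simp only [tau, phi]; ring

theorem tau_iter (g : KG) (k : ℕ) : tau n ((phi n)^[k] g) = (-((n : ℤ) + 2)) ^ k * tau n g := by
  induction k with
  | zero => simp
  | succ k ih => rw [Function.iterate_succ_apply', tau_phi, ih]; ring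

/-- the induced endomorphism as an element of the monoid of endomorphisms -/
noncomputable def hE : Monoid.End (FundamentalGroup KB (x0 n)) := hs n

theorem hE_apply (γ : FundamentalGroup KB (x0 n)) : hE n γ = hs n γ := rfl

theorem hs_pow (γ : FundamentalGroup KB (x0 n)) (k : ℕ) :
    (Psi n ((hE n ^ k) γ)).unop = (phi n)^[k] (Psi n γ).unop := by
  induction k with
  | zero => rfl
  | succ k ih =>
    rw [Function.iterate_succ_apply', ← ih, ← Psi_hs, pow_succ']
    rfl

/-- the intersection of the images -/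
noncomputable def GG : Subgroup (FundamentalGroup KB (x0 n)) :=
  ⨅ k : ℕ, MonoidHom.range (hE n ^ (k + 1))

theorem G_eq : (kleinSelf n).G = GG n := rfl

theorem mem_GG (γ : FundamentalGroup KB (x0 n)) :
    γ ∈ GG n ↔ ∀ k : ℕ, ∃ δ, (hE n ^ (k + 1)) δ = γ := by
  unfold GG
  rw [Subgroup.mem_iInf]
  rfl

theorem mem_G_iff (γ : FundamentalGroup KB (x0 n)) :
    γ ∈ GG n ↔ (Psi n γ).unop.i = 0 ∧ Even (Psi n γ).unop.j := by
  rw [mem_GG]
  constructor
  · intro h
    set g := (Psi n γ).unop with hg
    have hdiv : ∀ k : ℕ, (-((n : ℤ) + 2)) ^ (k + 1) ∣ tau n g := by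
      intro k
      obtain ⟨δ, hδ⟩ := h k
      refine ⟨tau n (Psi n δ).unop, ?_⟩
      rw [← tau_iter, ← hs_pow, hδ]
    have h0 : tau n g = 0 := by
      by_contra hne
      have h1 := hdiv (tau n g).natAbs
      have h2 := Int.natAbs_dvd_natAbs.mpr h1
      have h3 := Nat.le_of_dvd (Int.natAbs_pos.mpr hne) h2
      rw [Int.natAbs_pow, Int.natAbs_neg] at h3
      have h6 : ((n : ℤ) + 2).natAbs = n + 2 := by
        have : ((n : ℤ) + 2) = ((n + 2 : ℕ) : ℤ) := by push_cast; ring
        rw [this, Int.natAbs_natCast]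
      rw [h6] at h3
      have h4 : (tau n g).natAbs < (n + 2) ^ (tau n g).natAbs := Nat.lt_pow_self (by omega)
      have h5 : (n + 2) ^ (tau n g).natAbs ≤ (n + 2) ^ ((tau n g).natAbs + 1) :=
        Nat.pow_le_pow_right (by omega) (Nat.le_succ _)
      omega
    unfold tau eps at h0
    split_ifs at h0 with he
    · refine ⟨?_, he⟩
      have h1 : ((n : ℤ) + 3) * g.i = 0 := by linarith
      rcases mul_eq_zero.mp h1 with h2 | h2
      · omega
      · exact h2
    · exfalso
      have h1 : ((n : ℤ) + 3) * g.i = 1 := by linarith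
      have h2 : ((n : ℤ) + 3) ∣ 1 := ⟨g.i, h1.symm⟩
      have h3 := Int.le_of_dvd one_pos h2
      omega
  · rintro ⟨hi, hj⟩ k
    have hfix : hs n γ = γ := by
      apply (Psi n).injective
      apply MulOpposite.unop_injective
      rw [Psi_hs]
      ext
      · simp [phi, hi, eps, hj]
      · simp [phi]
    refine ⟨γ, ?_⟩
    have : ∀ k : ℕ, (hE n ^ k) γ = γ := by
      intro k
      induction k with
      | zero => rfl
      | succ k ih =>
        rw [pow_succ']
        show hE n ((hE n ^ k) γ) = γ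
        rw [ih]
        exact hfix
    exact this _

theorem GG_central : GG n ≤ Subgroup.center (FundamentalGroup KB (x0 n)) := by
  intro γ hγ
  rw [mem_G_iff] at hγ
  rw [Subgroup.mem_center_iff]
  intro δ
  apply (Psi n).injective
  apply MulOpposite.unop_injective
  rw [map_mul, map_mul, MulOpposite.unop_mul, MulOpposite.unop_mul]
  ext
  · simp [hγ.1, KG.sg_even hγ.2]
  · simp [add_comm]

theorem GG_normal : (GG n).Normal := by
  constructor
  intro γ hγ δ
  have h := Subgroup.mem_center_iff.mp (GG_central n hγ) δ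
  rw [h, mul_assoc, mul_inv_cancel, mul_one]
  exact hγ

noncomputable def G_equiv : GG n ≃* Multiplicative ℤ where
  toFun γ := Multiplicative.ofAdd ((Psi n γ.1).unop.j / 2)
  invFun k := ⟨(Psi n).symm (op ⟨0, 2 * Multiplicative.toAdd k⟩), by
    rw [mem_G_iff, MulEquiv.apply_symm_apply]
    exact ⟨rfl, even_two_mul _⟩⟩
  left_inv γ := by
    have h := (mem_G_iff n γ.1).mp γ.2
    apply Subtype.ext
    apply (Psi n).injective
    apply MulOpposite.unop_injective
    simp only [MulEquiv.apply_symm_apply, MulOpposite.unop_op, toAdd_ofAdd]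
    ext
    · exact h.1.symm
    · simp only
      exact Int.two_mul_ediv_two_of_even h.2
  right_inv k := by
    simp only [MulEquiv.apply_symm_apply, MulOpposite.unop_op]
    rw [Int.mul_ediv_cancel_left _ (by norm_num : (2 : ℤ) ≠ 0)]
    rfl
  map_mul' γ δ := by
    have h1 := (mem_G_iff n γ.1).mp γ.2
    have h2 := (mem_G_iff n δ.1).mp δ.2
    rw [← ofAdd_add]
    congr 1
    rw [Subgroup.coe_mul, map_mul, MulOpposite.unop_mul, KG.mul_j,
      Int.add_ediv_of_dvd_left h2.2.two_dvd, add_comm]

theorem GG_fp : Group.IsFinitelyPresented (GG n) :=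
  Group.IsFinitelyPresented.equiv (G_equiv n).symm

/-- the map of the Klein bottle group to the infinite dihedral group, as a map of sets -/
def df (g : KG) : DihedralGroup 0 :=
  if Even g.j then DihedralGroup.r (-g.i : ℤ) else DihedralGroup.sr (-g.i : ℤ)

theorem df_mul (g g' : KG) : df (g' * g) = df g * df g' := by
  unfold df
  by_cases h : Even g.j <;> by_cases h' : Even g'.j
  · have h2 : Even (g' * g).j := by rw [KG.mul_j]; exact h'.add h
    rw [if_pos h, if_pos h', if_pos h2, DihedralGroup.r_mul_r, KG.mul_i, KG.sg_even h']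
    congr 1
    show -(g'.i + 1 * g.i) = -g.i + -g'.i
    ring
  · have h2 : ¬ Even (g' * g).j := by
      rw [KG.mul_j, Int.even_add]; tauto
    rw [if_pos h, if_neg h', if_neg h2, DihedralGroup.r_mul_sr, KG.mul_i,
      KG.sg_odd (Int.not_even_iff_odd.mp h')]
    congr 1
    show -(g'.i + -1 * g.i) = -g'.i - -g.i
    ring
  · have h2 : ¬ Even (g' * g).j := by
      rw [KG.mul_j, Int.even_add]; tauto
    rw [if_neg h, if_pos h', if_neg h2, DihedralGroup.sr_mul_r, KG.mul_i, KG.sg_even h']
    congr 1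
    show -(g'.i + 1 * g.i) = -g.i + -g'.i
    ring
  · have h2 : Even (g' * g).j := by
      rw [KG.mul_j, Int.even_add]; tauto
    rw [if_neg h, if_neg h', if_pos h2, DihedralGroup.sr_mul_sr, KG.mul_i,
      KG.sg_odd (Int.not_even_iff_odd.mp h')]
    congr 1
    show -(g'.i + -1 * g.i) = -g'.i - -g.i
    ring

/-- the map to the infinite dihedral group -/
noncomputable def dh : FundamentalGroup KB (x0 n) →* DihedralGroup 0 where
  toFun γ := df (Psi n γ).unop
  map_one' := by
    rw [map_one]
    rfl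
  map_mul' γ δ := by
    rw [map_mul, MulOpposite.unop_mul, df_mul]

theorem dh_ker : (dh n).ker = GG n := by
  ext γ
  rw [MonoidHom.mem_ker, mem_G_iff]
  show df (Psi n γ).unop = 1 ↔ _
  unfold df
  rw [DihedralGroup.one_def]
  split_ifs with h
  · rw [DihedralGroup.r.injEq]
    constructor
    · intro h1
      have h2 : -(Psi n γ).unop.i = (0 : ℤ) := h1
      exact ⟨by omega, h⟩
    · rintro ⟨h1, -⟩
      rw [h1]; rfl
  · constructor
    · intro h1; cases h1
    · rintro ⟨-, h2⟩; exact absurd h2 h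

theorem dh_surj : Function.Surjective (dh n) := by
  rintro (k | k)
  · refine ⟨(Psi n).symm (op ⟨-(show ℤ from k), 0⟩), ?_⟩
    show df (Psi n ((Psi n).symm _)).unop = _
    rw [MulEquiv.apply_symm_apply, MulOpposite.unop_op, df, if_pos (by simp)]
    congr 1
    exact neg_neg (show ℤ from k)
  · refine ⟨(Psi n).symm (op ⟨-(show ℤ from k), 1⟩), ?_⟩
    show df (Psi n ((Psi n).symm _)).unop = _
    rw [MulEquiv.apply_symm_apply, MulOpposite.unop_op, df, if_neg (by simp)]
    congr 1
    exact neg_neg (show ℤ from k)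

noncomputable def quot_equiv [hN : (GG n).Normal] :
    (FundamentalGroup KB (x0 n) ⧸ GG n) ≃* DihedralGroup 0 :=
  (QuotientGroup.quotientMulEquivOfEq (dh_ker n).symm).trans
    (QuotientGroup.quotientKerEquivOfSurjective (dh n) (dh_surj n))

/-- the sign of an element of the fundamental group -/
noncomputable def sgn : FundamentalGroup KB (x0 n) →* ℤˣ where
  toFun γ := Int.negOnePow (Psi n γ).unop.j
  map_one' := by
    rw [map_one]; rfl
  map_mul' γ δ := by
    rw [map_mul, MulOpposite.unop_mul, KG.mul_j, Int.negOnePow_add, mul_comm]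

/-- the loop `b` -/
noncomputable def bb : FundamentalGroup KB (x0 n) := (Psi n).symm (op ⟨0, 1⟩)

theorem Psi_bb : (Psi n (bb n)).unop = ⟨0, 1⟩ := by
  unfold bb
  rw [MulEquiv.apply_symm_apply, MulOpposite.unop_op]

theorem sgn_bb : sgn n (bb n) = -1 := by
  show Int.negOnePow (Psi n (bb n)).unop.j = -1
  rw [Psi_bb]
  rfl

theorem bb_sq : bb n * bb n ∈ GG n := by
  rw [mem_G_iff]
  have h : (Psi n (bb n * bb n)).unop = ⟨0, 2⟩ := by
    rw [map_mul, MulOpposite.unop_mul, Psi_bb]
    ext
    · simp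
    · simp
  rw [h]
  exact ⟨rfl, ⟨1, rfl⟩⟩

theorem sgn_G {γ : FundamentalGroup KB (x0 n)} (h : γ ∈ GG n) : sgn n γ = 1 := by
  rw [mem_G_iff] at h
  exact Int.negOnePow_even _ h.2

universe u v w

theorem no_dom [hN : (GG n).Normal] (Y : Type u) [TopologicalSpace Y]
    (hY : IsEilenbergMacLane.{u, 0, w} (FundamentalGroup KB (x0 n) ⧸ GG n) Y) :
    ¬ FinitelyDominated.{u, v} Y := by
  rintro ⟨K, _, _, _, hfin, i, r, hir⟩
  obtain ⟨E, _, _, p, hE, hp⟩ := hY
  have := compact_of_finite hfin
  have := hE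
  refine not_dominated hp (QuotientGroup.mk (bb n)) ?_
    (QuotientGroup.lift (GG n) (sgn n) fun γ hγ => sgn_G n hγ) ?_ i r hir
  · rw [← QuotientGroup.mk_mul, QuotientGroup.eq_one_iff]
    exact bb_sq n
  · exact sgn_bb n

end Pool.Agent.H170.KD
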